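import Pool.Agent.H95.VG.Targets1
import Pool.Agent.H95.VG.Targets2
import Pool.Agent.H65.VG.ARE
import Pool.Agent.H15.VG.Basic
import Pool.Agent.H41.VG.CHR

/-! Module SHE: number of sheets in the case of flux zero. -/

open MeasureTheory Set Filter Topology
open scoped ENNReal NNReal ContDiff ComplexConjugate

namespace Pool.Agent.H80.VG.SHE

open Pool.Agent.H95.VG

variable {n : ℕ}

theorem two_le_inf : (2 : WithTop ℕ∞) ≤ ((⊤ : ℕ∞) : WithTop ℕ∞) := WithTop.coe_le_coe.2 (le_top : (2 : ℕ∞) ≤ ⊤)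

theorem lev_smul (h2 : T_LVM) (q : V n → ℝ) (y v : V n) (hq : ContDiffAt ℝ 2 q y) (c : ℂ) :
    lev q y (c • v) = ‖c‖ ^ 2 * lev q y v := by
  have e1 := ((h2 n y (c • v)).2 q hq).2
  have e2 := ((h2 n y v).2 q hq).2
  have : ((lev q y (c • v) : ℝ) : ℂ) = ((‖c‖ ^ 2 * lev q y v : ℝ) : ℂ) := by
    rw [e1]
    push_cast
    rw [e2, Finset.mul_sum]
    refine Finset.sum_congr rfl fun i _ => ?_
    rw [Finset.mul_sum]
    refine Finset.sum_congr rfl fun j _ => ?_
    rw [Pi.smul_apply, Pi.smul_apply, smul_eq_mul, smul_eq_mul, map_mul,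
      ← Complex.ofReal_pow, ← Complex.normSq_eq_norm_sq, ← Complex.mul_conj]
    ring
  exact_mod_cast this

theorem lev_eq_zero_of_const {q : V n → ℝ} {z : V n} {c : ℝ} (h : ∀ᶠ x in 𝓝 z, q x = c) (v : V n) :
    lev q z v = 0 := by
  have h1 : ∀ᶠ x in 𝓝 z, fderiv ℝ q x = 0 := by
    filter_upwards [h.eventually_nhds] with x hx
    have : q =ᶠ[𝓝 x] fun _ => c := hx
    rw [this.fderiv_eq]
    simp
  have h2 : ∀ u : V n, fderiv ℝ (fun x => fderiv ℝ q x u) z = 0 := by
    intro u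
    have : (fun x => fderiv ℝ q x u) =ᶠ[𝓝 z] fun _ => (0 : ℝ) := by
      filter_upwards [h1] with x hx
      rw [hx]; rfl
    rw [this.fderiv_eq]
    simp
  unfold lev
  rw [h2, h2]
  simp

theorem dr_eq_zero_of_const {q : V n → ℝ} {z : V n} {c : ℝ} (h : ∀ᶠ x in 𝓝 z, q x = c) (v : V n) :
    dr q z v = 0 := by
  have : fderiv ℝ q z = 0 := by
    have : q =ᶠ[𝓝 z] fun _ => c := h
    rw [this.fderiv_eq]
    simp
  unfold dr
  rw [this]
  simp

variable {X : Type} [TopologicalSpace X] {ι : Type} [Fintype ι]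

theorem LLs_eq_zero_of_const (A : Atl n X ι) (w : ι → V n → ℝ) (f : V n → X) {q : V n → ℝ}
    {z : V n} {c : ℝ} (h : ∀ᶠ x in 𝓝 z, q x = c) : LLs A w f q z = 0 := by
  unfold LLs LL
  have h1 : ∀ v, lev q z v = 0 := lev_eq_zero_of_const h
  have h2 : ∀ v, dr q z v = 0 := dr_eq_zero_of_const h
  simp [h1, h2]

theorem LL_nonneg (A : Atl n X ι) {w : ι → V n → ℝ} (hw : ∀ a y, 0 ≤ w a y) (f : V n → X)
    {g : V n → ℝ} (hg : ∀ z v, 0 ≤ lev g z v) (z : V n) : 0 ≤ LL A w f g z :=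
  Finset.sum_nonneg fun a _ => mul_nonneg (H15.VG.Wt_nonneg A hw a _)
    (Finset.sum_nonneg fun _ _ => hg _ _)

/-- lower bound of `LL g` at a point of a sheet -/
theorem LL_lower (hLVM : T_LVM) (hCHN : T_CHN) (A : Atl n X ι)
    {w : ι → V n → ℝ} (hw : ∀ a y, 0 ≤ w a y) (f : V n → X)
    {g : V n → ℝ} (hg2 : ContDiff ℝ 2 g) (hg : ∀ z v, 0 ≤ lev g z v) (a : ι)
    {O B : Set (V n)} (hO : IsOpen O) (hB : IsOpen B) {G : V n → V n}
    (hF : DifferentiableOn ℂ (FF A f a) O) (hG : DifferentiableOn ℂ G B)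
    (hOs : ∀ z ∈ O, f z ∈ (A.φ a).source)
    (hGO : ∀ x ∈ B, G x ∈ O ∧ FF A f a (G x) = x) {x : V n} (hx : x ∈ B) :
    w a x * ∑ k, lev (fun y => g (G y)) x (ek k) ≤
      ‖(jac G x).det‖ ^ 2 * LL A w f g (G x) := by
  set F := FF A f a with hFdef
  have hz : G x ∈ O := (hGO x hx).1
  have hFz : F (G x) = x := (hGO x hx).2
  have hdG : DifferentiableAt ℂ G x := hG.differentiableAt (hB.mem_nhds hx)
  have hdF : DifferentiableAt ℂ F (G x) := hF.differentiableAt (hO.mem_nhds hz)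
  have hcomp : (fderiv ℂ F (G x)).comp (fderiv ℂ G x) = ContinuousLinearMap.id ℂ (V n) := by
    have h1 : HasFDerivAt (fun y => F (G y)) ((fderiv ℂ F (G x)).comp (fderiv ℂ G x)) x :=
      hdF.hasFDerivAt.comp x hdG.hasFDerivAt
    have h2 : (fun y => F (G y)) =ᶠ[𝓝 x] id := by
      filter_upwards [hB.mem_nhds hx] with y hy
      exact (hGO y hy).2
    have h3 : HasFDerivAt (fun y => F (G y)) (ContinuousLinearMap.id ℂ (V n)) x :=
      (hasFDerivAt_id x).congr_of_eventuallyEq h2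
    exact h1.unique h3
  have hlin : (fderiv ℂ F (G x) : V n →ₗ[ℂ] V n) ∘ₗ (fderiv ℂ G x : V n →ₗ[ℂ] V n)
      = LinearMap.id := by
    ext1 i
    ext1
    have := congrArg (fun T : V n →L[ℂ] V n => T (Pi.single i 1)) hcomp
    simpa using this
  have hlin2 : (fderiv ℂ G x : V n →ₗ[ℂ] V n) ∘ₗ (fderiv ℂ F (G x) : V n →ₗ[ℂ] V n)
      = LinearMap.id := by
    exact (LinearMap.comp_eq_id_comm ℂ (V n)).1 hlin
  have hdet : (jac F (G x)).det * (jac G x).det = 1 := by
    rw [H65.VG.det_jac_eq, H65.VG.det_jac_eq, ← LinearMap.det_comp, hlin, LinearMap.det_id]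
  have hcf : ∀ k, cf F k (G x) = (jac F (G x)).det • fderiv ℂ G x (ek k) := by
    intro k
    have h1 := H41.VG.fderiv_cf F (G x) k
    have h2 : fderiv ℂ G x (fderiv ℂ F (G x) (cf F k (G x))) = cf F k (G x) := by
      have := congrArg (fun T : V n →ₗ[ℂ] V n => T (cf F k (G x))) hlin2
      simpa using this
    rw [← h2, h1, map_smul]
  have hlev : ∀ k, lev g (G x) (cf F k (G x))
      = ‖(jac F (G x)).det‖ ^ 2 * lev (fun y => g (G y)) x (ek k) := by
    intro k
    rw [hcf k, lev_smul hLVM g (G x) _ hg2.contDiffAt]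
    rw [(hCHN n B G hB hG x hx (ek k)).2.2.2 g hg2.contDiffAt]
  have hW : Wt A w a (f (G x)) = w a x := by
    unfold Wt
    rw [indicator_of_mem (hOs _ hz)]
    show w a (F (G x)) = w a x
    rw [hFz]
  have hLL : w a x * (‖(jac F (G x)).det‖ ^ 2 * ∑ k, lev (fun y => g (G y)) x (ek k))
      ≤ LL A w f g (G x) := by
    have : w a x * (‖(jac F (G x)).det‖ ^ 2 * ∑ k, lev (fun y => g (G y)) x (ek k))
        = Wt A w a (f (G x)) * ∑ k, lev g (G x) (cf (FF A f a) k (G x)) := by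
      rw [hW, Finset.mul_sum]
      congr 1
      exact Finset.sum_congr rfl fun k _ => (hlev k).symm
    rw [this]
    unfold LL
    exact Finset.single_le_sum (f := fun b => Wt A w b (f (G x)) *
      ∑ k, lev g (G x) (cf (FF A f b) k (G x)))
      (fun b _ => mul_nonneg (H15.VG.Wt_nonneg A hw b _) (Finset.sum_nonneg fun _ _ => hg _ _))
      (Finset.mem_univ a)
  have hn : ‖(jac G x).det‖ ^ 2 * ‖(jac F (G x)).det‖ ^ 2 = 1 := by
    rw [← mul_pow, ← norm_mul, mul_comm, hdet]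
    simp
  calc w a x * ∑ k, lev (fun y => g (G y)) x (ek k)
      = (‖(jac G x).det‖ ^ 2 * ‖(jac F (G x)).det‖ ^ 2) *
          (w a x * ∑ k, lev (fun y => g (G y)) x (ek k)) := by rw [hn, one_mul]
    _ = ‖(jac G x).det‖ ^ 2 *
          (w a x * (‖(jac F (G x)).det‖ ^ 2 * ∑ k, lev (fun y => g (G y)) x (ek k))) := by ring
    _ ≤ ‖(jac G x).det‖ ^ 2 * LL A w f g (G x) := by gcongr

/-- the integral of `LL g` over one sheet -/
theorem sheet_lower (hLVM : T_LVM) (hCHN : T_CHN) (hSMO : T_SMO) (A : Atl n X ι)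
    {w : ι → V n → ℝ} (hw : ∀ a y, 0 ≤ w a y) (f : V n → X)
    {g : V n → ℝ} (hg2 : ContDiff ℝ 2 g) (hg : ∀ z v, 0 ≤ lev g z v) (a : ι)
    {O B : Set (V n)} (hO : IsOpen O) (hB : IsOpen B) {G : V n → V n}
    (hF : DifferentiableOn ℂ (FF A f a) O) (hG : DifferentiableOn ℂ G B)
    (hOs : ∀ z ∈ O, f z ∈ (A.φ a).source)
    (hGO : ∀ x ∈ B, G x ∈ O ∧ FF A f a (G x) = x) {D : Set (V n)} (hDB : D ⊆ B)
    (hD : MeasurableSet D) {c₀ : ℝ} (hc₀ : 0 ≤ c₀) (hc : ∀ x ∈ D, c₀ ≤ w a x) :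
    MeasurableSet (G '' D) ∧
    ENNReal.ofReal (c₀ * ∫ x in D, ∑ k, lev (fun y => g (G y)) x (ek k)) ≤
      ∫⁻ z in G '' D, ENNReal.ofReal (LL A w f g z) := by
  have hinj : InjOn G D := by
    intro x hx y hy h
    rw [← (hGO x (hDB hx)).2, ← (hGO y (hDB hy)).2, h]
  refine ⟨hD.image_of_continuousOn_injOn (hG.continuousOn.mono hDB) hinj, ?_⟩
  have hdG : ∀ x ∈ B, DifferentiableAt ℂ G x := fun x hx => hG.differentiableAt (hB.mem_nhds hx)
  rw [lintegral_image_eq_lintegral_abs_det_fderiv_mul volume hD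
    (fun x hx => ((hdG x (hDB hx)).restrictScalars ℝ).hasFDerivAt.hasFDerivWithinAt) hinj]
  have hcomp : ∀ x ∈ B, ContDiffAt ℝ 2 (fun y => g (G y)) x := by
    intro x hx
    have h1 : ContDiffAt ℝ 2 G x :=
      (((hSMO n (V n) B G hB hG).2.1).contDiffAt (hB.mem_nhds hx)).of_le
        two_le_inf
    exact hg2.contDiffAt.comp x h1
  have hnn : ∀ x ∈ B, ∀ k, 0 ≤ lev (fun y => g (G y)) x (ek k) := by
    intro x hx k
    rw [(hCHN n B G hB hG x hx (ek k)).2.2.2 g hg2.contDiffAt]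
    exact hg _ _
  calc ENNReal.ofReal (c₀ * ∫ x in D, ∑ k, lev (fun y => g (G y)) x (ek k))
      = ENNReal.ofReal (∫ x in D, c₀ * ∑ k, lev (fun y => g (G y)) x (ek k)) := by
        rw [integral_const_mul]
    _ ≤ ∫⁻ x in D, ENNReal.ofReal (c₀ * ∑ k, lev (fun y => g (G y)) x (ek k)) := by
        by_cases hi : IntegrableOn (fun x => c₀ * ∑ k, lev (fun y => g (G y)) x (ek k)) D
        · rw [ofReal_integral_eq_lintegral_ofReal hi]
          refine (ae_restrict_iff' hD).2 (Eventually.of_forall fun x hx => ?_)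
          exact mul_nonneg hc₀ (Finset.sum_nonneg fun k _ => hnn x (hDB hx) k)
        · rw [integral_undef hi]
          simp
    _ ≤ ∫⁻ x in D, ENNReal.ofReal |(fderiv ℝ G x).det| * ENNReal.ofReal (LL A w f g (G x)) := by
        refine setLIntegral_mono' hD fun x hx => ?_
        rw [H65.VG.det_real (hdG x (hDB hx)), abs_of_nonneg (sq_nonneg _),
          ← ENNReal.ofReal_mul (sq_nonneg _)]
        refine ENNReal.ofReal_le_ofReal ?_
        refine le_trans ?_ (LL_lower hLVM hCHN A hw f hg2 hg a hO hB hF hG hOs hGO (hDB hx))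
        exact mul_le_mul_of_nonneg_right (hc x hx)
          (Finset.sum_nonneg fun k _ => hnn x (hDB hx) k)

/-- the shell -/
def KK (n : ℕ) : Set (V n) := {z | 1 / 4 ≤ nsq z ∧ nsq z ≤ 1 / 2}

theorem KK_sub : KK n ⊆ Dp n := by
  intro z hz
  constructor
  · have := hz.1; linarith
  · have := hz.2; linarith

theorem KK_compact : IsCompact (KK n) := by
  refine Metric.isCompact_of_isClosed_isBounded ?_ ?_
  · exact (isClosed_le continuous_const H15.VG.continuous_nsq).inter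
      (isClosed_le H15.VG.continuous_nsq continuous_const)
  · exact (Metric.isBounded_ball (x := (0 : V n)) (r := 1)).subset
      (KK_sub.trans H15.VG.Dp_subset_ball)

theorem contOn_Dm (hSMO : T_SMO) {O : Set (V n)} {Y : V n → V n} (hO : IsOpen O)
    (hY : DifferentiableOn ℂ Y O) : ContinuousOn (Dm Y) O := by
  unfold Dm
  refine continuousOn_finsetSum _ fun Φ _ => ?_
  have hm : DifferentiableOn ℂ (mix Φ Y) O := by
    refine differentiableOn_pi.2 fun i => ?_
    unfold mix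
    rcases Φ i with j | j
    · exact (differentiable_apply j).differentiableOn
    · exact (differentiableOn_pi.1 hY) j
  exact ((H15.VG.contOn_det hSMO hO hm).norm).pow 2

/-- upper bound of the integral over the shell -/
theorem upper [T2Space X] (hSMO : T_SMO) (hOAO : T_OAO) (hPWB : T_PWB) (hCUT : T_CUT) (hLGP : T_LGP)
    (A : Atl n X ι) (w : ι → V n → ℝ) (f : V n → X) (I : Set (V n)) (hG : Gau A w)
    (hS : Sing A f I) : ∃ C : ℝ, 0 ≤ C ∧ ∀ (d : ℕ) (P : MvPolynomial (Fin n) ℂ) (δ : ℝ), 1 ≤ d →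
      P.totalDegree ≤ d → Nrm P → 0 < δ → δ ≤ 1 →
      IntegrableOn (fun z => lgd P δ z * LLs A w f chi z) (Dp n \ I) →
      ∫ z in Dp n \ I, lgd P δ z * LLs A w f chi z ≤ C * d := by
  have hchi := hCUT n
  obtain ⟨C₁, hC₁⟩ := hPWB n X ι A w f I hG hS chi (KK n) ((hchi.1.of_le
    two_le_inf).contDiffOn) KK_sub KK_compact
  obtain ⟨C₂, hC₂⟩ := hS.s4 (KK n) KK_sub KK_compact
  have hcont := H15.VG.continuous_nsq (n := n)
  set S : ι → Set (V n) := fun b => (KK n \ I) ∩ Cb A f b (3 / 2) with hSdef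
  have hKI : KK n \ I = KK n ∩ (Dp n \ I) := by
    ext z
    exact ⟨fun h => ⟨h.1, KK_sub h.1, h.2⟩, fun h => ⟨h.1, h.2.2⟩⟩
  have hSm : ∀ b, MeasurableSet (S b) := by
    intro b
    have : S b = KK n ∩ ((Dp n \ I) ∩ Cb A f b (3 / 2)) := by
      rw [hSdef]
      simp only
      rw [hKI, inter_assoc]
    rw [this]
    exact KK_compact.measurableSet.inter (H15.VG.measurableSet_Cb hOAO hS b (by norm_num))
  have hSO : ∀ b, S b ⊆ Oa A f I b := by
    intro b z hz
    exact (hOAO n X ι A f I hS b).2.2.2.1 (3 / 2) (by norm_num) ⟨⟨KK_sub hz.1.1, hz.1.2⟩, hz.2⟩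
  refine ⟨|C₁| * (Fintype.card ι * |C₂|), by positivity, ?_⟩
  intro d P δ hd hP hN hδ hδ1 hint
  have hgc : Continuous (lgd P δ) := (hLGP n P δ hδ).1.continuous
  have hDm0 : ∀ (b : ι) z, 0 ≤ Dm (FF A f b) z := fun b z =>
    Finset.sum_nonneg fun _ _ => sq_nonneg _
  set U : ι → V n → ℝ≥0∞ := fun b => (S b).indicator
    (fun z => ENNReal.ofReal |C₁| * ENNReal.ofReal (|lgd P δ z| * Dm (FF A f b) z)) with hU
  have hUm : ∀ b, Measurable (U b) := by
    intro b
    refine H15.VG.meas_ind (hSm b) ?_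
    have h1 : ContinuousOn (fun z => |lgd P δ z| * Dm (FF A f b) z) (S b) :=
      hgc.abs.continuousOn.mul ((contOn_Dm hSMO (hOAO n X ι A f I hS b).1
        (hOAO n X ι A f I hS b).2.1).mono (hSO b))
    have h2 : ContinuousOn (fun z => ENNReal.ofReal (|lgd P δ z| * Dm (FF A f b) z)) (S b) :=
      ENNReal.continuous_ofReal.comp_continuousOn h1
    exact (ENNReal.continuous_const_mul ENNReal.ofReal_ne_top).comp_continuousOn h2
  have hpt : ∀ z ∈ Dp n \ I, ENNReal.ofReal |lgd P δ z * LLs A w f chi z| ≤ ∑ b, U b z := by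
    intro z hz
    by_cases hzK : z ∈ KK n
    · have h1 := (hC₁ z ⟨hzK, hz.2⟩).2
      have h2 : |lgd P δ z * LLs A w f chi z| ≤
          ∑ b, |C₁| * (|lgd P δ z| * (Cb A f b (3 / 2)).indicator (Dm (FF A f b)) z) := by
        rw [abs_mul]
        have h3 : 0 ≤ ∑ b, (Cb A f b (3 / 2)).indicator (Dm (FF A f b)) z :=
          Finset.sum_nonneg fun b _ => indicator_nonneg (fun z _ => hDm0 b z) z
        calc |lgd P δ z| * |LLs A w f chi z|
            ≤ |lgd P δ z| * (|C₁| * ∑ b, (Cb A f b (3 / 2)).indicator (Dm (FF A f b)) z) := by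
              gcongr
              exact h1.trans (mul_le_mul_of_nonneg_right (le_abs_self _) h3)
          _ = ∑ b, |C₁| * (|lgd P δ z| * (Cb A f b (3 / 2)).indicator (Dm (FF A f b)) z) := by
              rw [Finset.mul_sum, Finset.mul_sum]
              refine Finset.sum_congr rfl fun b _ => ?_
              ring
      refine (ENNReal.ofReal_le_ofReal h2).trans ?_
      rw [ENNReal.ofReal_sum_of_nonneg (fun b _ => mul_nonneg (abs_nonneg _)
        (mul_nonneg (abs_nonneg _) (indicator_nonneg (fun z _ => hDm0 b z) z)))]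
      refine Finset.sum_le_sum fun b _ => ?_
      rw [hU]
      simp only
      by_cases hb : z ∈ Cb A f b (3 / 2)
      · have hb' : z ∈ S b := ⟨⟨hzK, hz.2⟩, hb⟩
        rw [indicator_of_mem hb', indicator_of_mem hb, ENNReal.ofReal_mul (abs_nonneg _)]
      · rw [indicator_of_notMem hb]
        simp
    · have h0 : LLs A w f chi z = 0 := by
        have : (nsq z < 1 / 4) ∨ (1 / 2 < nsq z) := by
          by_contra hcon
          push Not at hcon
          exact hzK hcon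
        rcases this with h | h
        · refine LLs_eq_zero_of_const (c := 1) A w f ?_
          filter_upwards [(isOpen_lt hcont continuous_const).mem_nhds h] with x hx
          exact (hchi.2.2.1 x).2.2.1 (le_of_lt hx)
        · refine LLs_eq_zero_of_const (c := 0) A w f ?_
          filter_upwards [(isOpen_lt continuous_const hcont).mem_nhds h] with x hx
          exact (hchi.2.2.1 x).2.2.2 (le_of_lt hx)
      rw [h0]
      simp
  have hmain : ∫⁻ z in Dp n \ I, ENNReal.ofReal |lgd P δ z * LLs A w f chi z| ≤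
      ENNReal.ofReal (|C₁| * (Fintype.card ι * |C₂|) * d) := by
    calc ∫⁻ z in Dp n \ I, ENNReal.ofReal |lgd P δ z * LLs A w f chi z|
        ≤ ∫⁻ z in Dp n \ I, ∑ b, U b z := setLIntegral_mono' hS.opn.measurableSet hpt
      _ ≤ ∫⁻ z, ∑ b, U b z := setLIntegral_le_lintegral _ _
      _ = ∑ b, ∫⁻ z, U b z := lintegral_finsetSum _ fun b _ => hUm b
      _ ≤ ∑ _b : ι, ENNReal.ofReal |C₁| * ENNReal.ofReal (|C₂| * d) := by
          refine Finset.sum_le_sum fun b _ => ?_
          rw [hU]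
          simp only
          rw [lintegral_indicator (hSm b), lintegral_const_mul' _ _ ENNReal.ofReal_ne_top]
          gcongr
          refine le_trans (lintegral_mono_set ?_) ((hC₂ d P δ hd hP hN hδ hδ1 b).trans
            (ENNReal.ofReal_le_ofReal (mul_le_mul_of_nonneg_right (le_abs_self _)
              (Nat.cast_nonneg _))))
          rintro z ⟨hz1, hz2, hz3⟩
          exact ⟨hz1, hz2, Metric.closedBall_subset_closedBall (by norm_num) hz3⟩
      _ = ENNReal.ofReal (|C₁| * (Fintype.card ι * |C₂|) * d) := by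
          rw [Finset.sum_const, nsmul_eq_mul, ← ENNReal.ofReal_mul (abs_nonneg _),
            Finset.card_univ, ← ENNReal.ofReal_natCast, ← ENNReal.ofReal_mul (Nat.cast_nonneg _)]
          congr 1
          ring
  have h1 : ENNReal.ofReal (∫ z in Dp n \ I, |lgd P δ z * LLs A w f chi z|) ≤
      ENNReal.ofReal (|C₁| * (Fintype.card ι * |C₂|) * d) := by
    rw [ofReal_integral_eq_lintegral_ofReal hint.abs (Eventually.of_forall fun _ => abs_nonneg _)]
    exact hmain
  have h2 := (ENNReal.ofReal_le_ofReal_iff (by positivity)).1 h1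
  refine le_trans ?_ h2
  exact integral_mono hint hint.abs fun z => le_abs_self _

theorem poly_zero {P : MvPolynomial (Fin n) ℂ} {z : V n} (h : ∀ᶠ x in 𝓝 z, MvPolynomial.eval x P = 0) :
    P = 0 := by
  obtain ⟨r, hr, hball⟩ := Metric.eventually_nhds_iff_ball.1 h
  apply MvPolynomial.funext_set (fun i => Metric.ball (z i) r)
    (fun i => infinite_of_mem_nhds (z i) (Metric.ball_mem_nhds _ hr))
  intro x hx
  rw [map_zero]
  apply hball
  rw [ball_pi z hr]
  exact hx

theorem image_nhds (hSMO : T_SMO) {O B : Set (V n)} (hO : IsOpen O) (hB : IsOpen B)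
    {F G : V n → V n} (hF : DifferentiableOn ℂ F O) (hG : DifferentiableOn ℂ G B)
    (hGO : ∀ x ∈ B, G x ∈ O ∧ F (G x) = x) {x : V n} (hx : x ∈ B) : G '' B ∈ 𝓝 (G x) := by
  have hz : G x ∈ O := (hGO x hx).1
  have hdG : DifferentiableAt ℂ G x := hG.differentiableAt (hB.mem_nhds hx)
  have hdF : DifferentiableAt ℂ F (G x) := hF.differentiableAt (hO.mem_nhds hz)
  have hcomp : (fderiv ℂ F (G x)).comp (fderiv ℂ G x) = ContinuousLinearMap.id ℂ (V n) := by
    have h1 : HasFDerivAt (fun y => F (G y)) ((fderiv ℂ F (G x)).comp (fderiv ℂ G x)) x :=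
      hdF.hasFDerivAt.comp x hdG.hasFDerivAt
    have h2 : (fun y => F (G y)) =ᶠ[𝓝 x] id := by
      filter_upwards [hB.mem_nhds hx] with y hy
      exact (hGO y hy).2
    have h3 : HasFDerivAt (fun y => F (G y)) (ContinuousLinearMap.id ℂ (V n)) x :=
      (hasFDerivAt_id x).congr_of_eventuallyEq h2
    exact h1.unique h3
  have hlin : (fderiv ℂ F (G x) : V n →ₗ[ℂ] V n) ∘ₗ (fderiv ℂ G x : V n →ₗ[ℂ] V n)
      = LinearMap.id := by
    ext1 i
    ext1
    have := congrArg (fun T : V n →L[ℂ] V n => T (Pi.single i 1)) hcomp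
    simpa using this
  have hlin2 : (fderiv ℂ G x : V n →ₗ[ℂ] V n) ∘ₗ (fderiv ℂ F (G x) : V n →ₗ[ℂ] V n)
      = LinearMap.id := (LinearMap.comp_eq_id_comm ℂ (V n)).1 hlin
  have hsurj : (fderiv ℂ G x).range = ⊤ := by
    rw [LinearMap.range_eq_top]
    intro v
    refine ⟨fderiv ℂ F (G x) v, ?_⟩
    have := congrArg (fun T : V n →ₗ[ℂ] V n => T v) hlin2
    simpa using this
  have hc : ContDiffAt ℂ 1 G x :=
    (((hSMO n (V n) B G hB hG).1).contDiffAt (hB.mem_nhds hx)).of_le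
        (by norm_num)
  have hs : HasStrictFDerivAt G (fderiv ℂ G x) x := hc.hasStrictFDerivAt (by simp)
  have := hs.map_nhds_eq_of_surj hsurj
  rw [← this]
  exact image_mem_map (hB.mem_nhds hx)

/-- Module SHE. -/
theorem she (hSMO : T_SMO) (hLVM : T_LVM) (hCHN : T_CHN) (hCUT : T_CUT) (hOAO : T_OAO)
    (hPWB : T_PWB) (hF1 : T_F1) (hLGP : T_LGP) (hSGL : T_SGL) (hJEN : T_JEN) : T_SHE := by
  intro n X _ _ _ ι _ A w f I hG hS hflux a
  have hn : 2 ≤ n := hS.two
  obtain ⟨C₁, hC₁, hup⟩ := upper hSMO hOAO hPWB hCUT hLGP A w f I hG hS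
  obtain ⟨cJ, hcJ, hJ⟩ := hJEN n (by omega)
  obtain ⟨ε, hε, hsub⟩ := (isCompact_closedBall (0 : V n) 1).exists_cthickening_subset_open
    (isOpen_lt continuous_const (hG.smooth a).continuous) (fun y hy => hG.pos a y hy)
  rw [cthickening_closedBall hε.le zero_le_one] at hsub
  obtain ⟨x₀, hx₀, hmin⟩ := (isCompact_closedBall (0 : V n) (ε + 1)).exists_isMinOn
    ⟨0, by simp; positivity⟩ (hG.smooth a).continuous.continuousOn
  set c₀ : ℝ := w a x₀ with hc₀def
  have hc₀ : 0 < c₀ := hsub hx₀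
  set M : ℝ := C₁ * n / (c₀ * cJ) with hM
  have hM0 : 0 ≤ M := by positivity
  refine ⟨max 1 (M ^ n), ε / 2, by positivity, ?_⟩
  intro ρ S G hρ hρ₀ hSh
  rcases S.eq_empty_or_nonempty with hSe | hSne
  · rw [hSe]
    simp
  have hN1 : 1 ≤ S.card := hSne.card_pos
  have hn0 : n ≠ 0 := by omega
  obtain ⟨d, hd1, hdN, hNd⟩ : ∃ d : ℕ, 1 ≤ d ∧ d ^ n ≤ S.card ∧ S.card < (d + 1) ^ n := by
    have hP1 : (1 : ℕ) ^ n ≤ S.card := by simpa using hN1
    refine ⟨Nat.findGreatest (fun d => d ^ n ≤ S.card) S.card,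
      Nat.le_findGreatest hN1 hP1, Nat.findGreatest_spec (P := fun d => d ^ n ≤ S.card) hN1 hP1, ?_⟩
    by_contra hcon
    push Not at hcon
    set D := Nat.findGreatest (fun d => d ^ n ≤ S.card) S.card
    rcases le_or_gt (D + 1) S.card with h | h
    · exact Nat.findGreatest_is_greatest (P := fun d => d ^ n ≤ S.card) (Nat.lt_succ_self D) h hcon
    · have := Nat.le_self_pow hn0 (D + 1)
      omega
  obtain ⟨P, hPd, hPN, hPz⟩ := hSGL n d S (by omega) hNd
  have hP0 : P ≠ 0 := by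
    rintro rfl
    obtain ⟨z, -, hz⟩ := hPN.2
    simp at hz
  have hO : IsOpen {z ∈ Oa A f I a | nsq z < 1 / 4} :=
    (hOAO n X ι A f I hS a).1.inter (isOpen_lt H15.VG.continuous_nsq continuous_const)
  have hF : DifferentiableOn ℂ (FF A f a) {z ∈ Oa A f I a | nsq z < 1 / 4} :=
    (hOAO n X ι A f I hS a).2.1.mono fun z hz => hz.1
  -- choice of `δ`
  have hδex : ∀ s ∈ S, ∀ᶠ δ in 𝓝[>] (0 : ℝ), cJ * ρ ^ (2 * n - 2) ≤
      ∫ x in Metric.ball (FF A f a s) (2 * ρ),
        ∑ k, lev (fun x => lgd P δ (G s x)) x (ek k) := by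
    intro s hs
    obtain ⟨hsO, hsF, hGd, hGs, hGx⟩ := hSh.1 s hs
    obtain ⟨δ₀, hδ₀, h⟩ := hJ (FF A f a s) ρ (3 * ρ) (fun x => MvPolynomial.eval (G s x) P) hρ
      (by linarith) (by
        have hP : Differentiable ℂ (fun z : V n => MvPolynomial.eval z P) := by
          have := (AnalyticOnNhd.eval_mvPolynomial (𝕜 := ℂ) (σ := Fin n) P)
          exact fun z => (this z (mem_univ _)).differentiableAt
        exact hP.comp_differentiableOn hGd) (by rw [hGs]; exact hPz s hs) (by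
        by_contra hcon
        push Not at hcon
        apply hP0
        have h1 := image_nhds hSMO hO Metric.isOpen_ball hF hGd hGx
          (Metric.mem_ball_self (by positivity : 0 < 3 * ρ))
        refine poly_zero (z := G s (FF A f a s)) ?_
        filter_upwards [h1] with z hz
        obtain ⟨x, hx, rfl⟩ := hz
        exact hcon x hx)
    filter_upwards [Ioo_mem_nhdsGT hδ₀] with δ hδ
    exact h δ hδ.1 hδ.2
  obtain ⟨δ, hδJ, hδ⟩ := (((Filter.eventually_all_finset S).2 hδex).and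
    (Ioo_mem_nhdsGT (zero_lt_one (α := ℝ)))).exists
  have hδ0 : 0 < δ := hδ.1
  have hδ1 : δ ≤ 1 := hδ.2.le
  set g := lgd P δ with hgdef
  have hg2 : ContDiff ℝ 2 g := (hLGP n P δ hδ0).1.of_le two_le_inf
  have hglev : ∀ z v, 0 ≤ lev g z v := (hLGP n P δ hδ0).2
  obtain ⟨hi1, hi2, hF1'⟩ := hF1 n X ι A w f I hG hS g hg2
  simp only [hflux, zero_mul, sub_zero] at hF1'
  have hub : ∫ z in Dp n \ I, chi z * LL A w f g z ≤ C₁ * ((n * d : ℕ) : ℝ) := by
    rw [hF1']
    exact hup (n * d) P δ (by nlinarith) hPd hPN hδ0 hδ1 hi2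
  have hLLnn : ∀ z, 0 ≤ LL A w f g z := LL_nonneg A hG.nonneg f hglev
  have hchi0 : ∀ z : V n, 0 ≤ chi z := fun z => ((hCUT n).2.2.1 z).1
  have hlb : ENNReal.ofReal (S.card * (c₀ * (cJ * ρ ^ (2 * n - 2)))) ≤
      ENNReal.ofReal (∫ z in Dp n \ I, chi z * LL A w f g z) := by
    rw [ofReal_integral_eq_lintegral_ofReal hi1 (Eventually.of_forall fun z =>
      mul_nonneg (hchi0 z) (hLLnn z))]
    have hsheet : ∀ s ∈ S, MeasurableSet (G s '' Metric.ball (FF A f a s) (2 * ρ)) ∧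
        ENNReal.ofReal (c₀ * (cJ * ρ ^ (2 * n - 2))) ≤
          ∫⁻ z in G s '' Metric.ball (FF A f a s) (2 * ρ), ENNReal.ofReal (LL A w f g z) := by
      intro s hs
      obtain ⟨hsO, hsF, hGd, hGs, hGx⟩ := hSh.1 s hs
      obtain ⟨h1, h2⟩ := sheet_lower hLVM hCHN hSMO A hG.nonneg f hg2 hglev a hO Metric.isOpen_ball
        hF hGd (fun z hz => hz.1.2.1) hGx (D := Metric.ball (FF A f a s) (2 * ρ))
        (Metric.ball_subset_ball (by linarith)) Metric.isOpen_ball.measurableSet hc₀.le (by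
          intro x hx
          refine hmin ?_
          rw [mem_closedBall_zero_iff] at hsF ⊢
          rw [Metric.mem_ball, dist_eq_norm] at hx
          have : ‖x‖ ≤ ‖x - FF A f a s‖ + ‖FF A f a s‖ := by
            simpa using norm_add_le (x - FF A f a s) (FF A f a s)
          linarith)
      refine ⟨h1, le_trans (ENNReal.ofReal_le_ofReal ?_) h2⟩
      exact mul_le_mul_of_nonneg_left (hδJ s hs) hc₀.le
    have hUsub : (⋃ s ∈ S, G s '' Metric.ball (FF A f a s) (2 * ρ)) ⊆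
        {z | z ∈ Dp n \ I ∧ nsq z < 1 / 4} := by
      refine iUnion₂_subset fun s hs => ?_
      rintro z ⟨x, hx, rfl⟩
      obtain ⟨hsO, hsF, hGd, hGs, hGx⟩ := hSh.1 s hs
      have := (hGx x (Metric.ball_subset_ball (by linarith) hx)).1
      exact ⟨this.1.1, this.2⟩
    calc ENNReal.ofReal (S.card * (c₀ * (cJ * ρ ^ (2 * n - 2))))
        = ∑ _s ∈ S, ENNReal.ofReal (c₀ * (cJ * ρ ^ (2 * n - 2))) := by
          rw [Finset.sum_const, nsmul_eq_mul, ENNReal.ofReal_mul (Nat.cast_nonneg _),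
            ENNReal.ofReal_natCast]
      _ ≤ ∑ s ∈ S, ∫⁻ z in G s '' Metric.ball (FF A f a s) (2 * ρ),
            ENNReal.ofReal (LL A w f g z) := Finset.sum_le_sum fun s hs => (hsheet s hs).2
      _ = ∫⁻ z in ⋃ s ∈ S, G s '' Metric.ball (FF A f a s) (2 * ρ),
            ENNReal.ofReal (LL A w f g z) := by
          rw [lintegral_biUnion_finset (fun s hs s' hs' hne => hSh.2 s hs s' hs' hne)
            (fun s hs => (hsheet s hs).1)]
      _ = ∫⁻ z in ⋃ s ∈ S, G s '' Metric.ball (FF A f a s) (2 * ρ),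
            ENNReal.ofReal (chi z * LL A w f g z) := by
          refine setLIntegral_congr_fun (Finset.measurableSet_biUnion S fun s hs =>
            (hsheet s hs).1) fun z hz => ?_
          have : chi z = 1 := ((hCUT n).2.2.1 z).2.2.1 (hUsub hz).2.le
          simp only [this, one_mul]
      _ ≤ ∫⁻ z in Dp n \ I, ENNReal.ofReal (chi z * LL A w f g z) :=
          lintegral_mono_set fun z hz => (hUsub hz).1
  have hInn : 0 ≤ ∫ z in Dp n \ I, chi z * LL A w f g z :=
    integral_nonneg fun z => mul_nonneg (hchi0 z) (hLLnn z)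
  have hlb' := (ENNReal.ofReal_le_ofReal_iff hInn).1 hlb
  have hmain : (S.card : ℝ) * (c₀ * (cJ * ρ ^ (2 * n - 2))) ≤ C₁ * (n * d) := by
    refine hlb'.trans (hub.trans (le_of_eq ?_))
    push_cast
    ring
  -- arithmetic
  set N : ℝ := (S.card : ℝ) with hN
  have hNpos : 1 ≤ N := by rw [hN]; exact_mod_cast hN1
  set x : ℝ := N * ρ ^ (2 * n) with hx
  have hx0 : 0 ≤ x := by positivity
  rcases le_or_gt x 1 with hx1 | hx1
  · exact hx1.trans (le_max_left _ _)
  refine le_trans ?_ (le_max_right _ _)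
  have h1 : N * ρ ^ (2 * n - 2) ≤ M * d := by
    rw [hM, div_mul_eq_mul_div, le_div_iff₀ (by positivity)]
    calc N * ρ ^ (2 * n - 2) * (c₀ * cJ) = N * (c₀ * (cJ * ρ ^ (2 * n - 2))) := by ring
      _ ≤ C₁ * (n * d) := hmain
      _ = C₁ * n * d := by ring
  have h2 : (N * ρ ^ (2 * n - 2)) ^ n ≤ M ^ n * N := by
    calc (N * ρ ^ (2 * n - 2)) ^ n ≤ (M * d) ^ n := pow_le_pow_left₀ (by positivity) h1 n
      _ = M ^ n * (d : ℝ) ^ n := by rw [mul_pow]
      _ ≤ M ^ n * N := by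
        refine mul_le_mul_of_nonneg_left ?_ (by positivity)
        rw [hN]
        exact_mod_cast hdN
  have h3 : (N * ρ ^ (2 * n - 2)) ^ n = x ^ (n - 1) * N := by
    obtain ⟨m, rfl⟩ : ∃ m, n = m + 1 := ⟨n - 1, by omega⟩
    have e1 : 2 * (m + 1) - 2 = 2 * m := by omega
    have e2 : m + 1 - 1 = m := by omega
    rw [e1, e2, hx]
    ring
  rw [h3] at h2
  have h4 : x ^ (n - 1) ≤ M ^ n := le_of_mul_le_mul_right h2 (by linarith)
  refine le_trans ?_ h4
  exact le_self_pow₀ hx1.le (by omega)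

end Pool.Agent.H80.VG.SHE
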