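import Pool.Agent.H95.VG.Targets1
import Pool.Agent.H95.VG.Targets3
import Pool.Agent.H15.VG.Basic
import Pool.Agent.H33.VG.BY1
import Pool.Agent.H73.VG.PIO
import Pool.Agent.H73.VG.LVM

/-! Module WCA: the push forward of `dχ` is weakly closed. -/

open MeasureTheory Set Filter Topology
open scoped ENNReal NNReal ContDiff ComplexConjugate

namespace Pool.Agent.H80.VG.WCA

open Pool.Agent.H95.VG

variable {n : ℕ}

/-! ### determinants -/

open H73.VG in
theorem swapV (M : Fin n → V n) (k l : Fin n) (hkl : l ≠ k) (u v : V n) :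
    DD n (Function.update (Function.update M k v) l u) =
      -DD n (Function.update (Function.update M k u) l v) := by
  have h := (Matrix.detRowAlternating : (V n) [⋀^Fin n]→ₗ[ℂ] ℂ).map_swap
    (Function.update (Function.update M k u) l v) hkl
  have e : (Function.update (Function.update M k u) l v) ∘ Equiv.swap l k =
      Function.update (Function.update M k v) l u := by
    funext m
    by_cases h1 : m = l
    · subst h1
      simp [Function.update_of_ne hkl.symm]
    · by_cases h2 : m = k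
      · subst h2
        simp [Function.update_of_ne h1]
      · simp [Equiv.swap_apply_of_ne_of_ne h1 h2, Function.update_of_ne h1, Function.update_of_ne h2]
  rw [e] at h
  exact h

open H73.VG in
theorem expand (M : Fin n → V n) (l : Fin n) (v : V n) :
    ∑ j, v j * DD n (Function.update M l (ek j)) = DD n (Function.update M l v) := by
  conv_rhs => rw [sum_ek v]
  have h := (DD n).toMultilinearMap.map_update_sum Finset.univ l (fun i => v i • (ek i : V n)) M
  refine Eq.trans ?_ h.symm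
  refine Finset.sum_congr rfl fun j _ => ?_
  have h2 := (DD n).toMultilinearMap.map_update_smul M l (v j) (ek j)
  rw [h2, smul_eq_mul]
  rfl

open H73.VG in
theorem eqrows (M : Fin n → V n) (l m : Fin n) (h : m ≠ l) :
    DD n (Function.update M l (M m)) = 0 := by
  have := (Matrix.detRowAlternating : (V n) [⋀^Fin n]→ₗ[ℂ] ℂ).map_eq_zero_of_eq
    (Function.update M l (M m)) (i := m) (j := l) (by simp [Function.update_of_ne h]) h
  exact this

/-! ### the form -/

/-- `b10` as a continuous linear map of the form -/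
noncomputable def Lb (v : V n) : (V n →L[ℝ] ℝ) →L[ℝ] ℂ :=
  (2 : ℂ)⁻¹ • (Complex.ofRealCLM.comp (ContinuousLinearMap.apply ℝ ℝ v) -
    Complex.I • Complex.ofRealCLM.comp (ContinuousLinearMap.apply ℝ ℝ (Complex.I • v)))

theorem Lb_apply (v : V n) (β : V n →L[ℝ] ℝ) : Lb v β = b10 β v := by
  simp [Lb, b10]
  ring

theorem b10_eq (hLIN : T_LIN) (β : V n →L[ℝ] ℝ) (v : V n) :
    b10 β v = ∑ i, v i * b10 β (ek i) ∧ β v = 2 * (b10 β v).re := by
  have h := (hLIN n 0).2.2.2.2 (fun x => β x) v
  have e : ∀ u : V n, dr (fun x => β x) 0 u = b10 β u := by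
    intro u
    unfold dr b10
    rw [ContinuousLinearMap.fderiv]
  rw [e] at h
  simp only [e] at h
  rw [ContinuousLinearMap.fderiv] at h
  exact h

theorem form_identity (B B' P P' : ℂ) :
    2 * B.re * (2 * P'.re) - 2 * B'.re * (2 * P.re) =
      2 * ((B * P' - B' * P) + (B * conj P' - conj B' * P)).re := by
  simp only [Complex.add_re, Complex.sub_re, Complex.mul_re, Complex.conj_re, Complex.conj_im]
  ring

/-! ### bounded functions and integrability -/

theorem bdd_of_cpt {E : Type*} [NormedAddCommGroup E] {K : Set (V n)} (hK : IsCompact K)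
    {c : V n → E} (hc : Continuous c) (h0 : ∀ z, z ∉ K → c z = 0) : ∃ C : ℝ, 0 ≤ C ∧ ∀ z, ‖c z‖ ≤ C := by
  obtain ⟨M, hM⟩ := hK.exists_bound_of_continuousOn hc.continuousOn
  refine ⟨max M 0, le_max_right _ _, fun z => ?_⟩
  by_cases hz : z ∈ K
  · exact (hM z hz).trans (le_max_left _ _)
  · rw [h0 z hz, norm_zero]; exact le_max_right _ _

variable {X : Type} [TopologicalSpace X] {ι : Type}

theorem int_uvc {A : Atl n X ι} {f : V n → X} {I : Set (V n)} (hs : Sing A f I) {a : ι}
    (hO : IsOpen (Oa A f I a)) {K : Set (V n)} (hKD : K ⊆ Dp n) (hK : IsCompact K) {R : ℝ}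
    (hR : R < 2) {u v c : V n → ℂ} (hu : ContinuousOn u (Oa A f I a))
    (hv : ContinuousOn v (Oa A f I a)) (hc : ContinuousOn c (Oa A f I a))
    (bu : ∀ z ∈ Oa A f I a, ‖u z‖ ^ 2 ≤ Dm (FF A f a) z)
    (bv : ∀ z ∈ Oa A f I a, ‖v z‖ ^ 2 ≤ Dm (FF A f a) z) {C : ℝ}
    (bc : ∀ z ∈ Oa A f I a, ‖c z‖ ≤ C)
    (sc : ∀ z ∈ Oa A f I a, c z ≠ 0 → z ∈ K ∩ Cb A f a R) :
    IntegrableOn (fun z => u z * v z * c z) (Oa A f I a) := by
  refine H33.VG.integrableOn_of_le hs hO hKD hK hR ((hu.mul hv).mul hc) (C := C) ?_ ?_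
  · intro z hz
    rw [norm_mul, norm_mul, mul_comm C]
    have h1 : ‖u z‖ * ‖v z‖ ≤ Dm (FF A f a) z := by
      nlinarith [bu z hz, bv z hz, sq_nonneg (‖u z‖ - ‖v z‖)]
    have h2 : 0 ≤ Dm (FF A f a) z := Finset.sum_nonneg fun _ _ => sq_nonneg _
    exact mul_le_mul h1 (bc z hz) (norm_nonneg _) h2
  · intro z hz hne
    refine sc z hz fun h => hne ?_
    rw [h, mul_zero]

theorem sfo' [T2Space X] (hOAO : T_OAO) (hSFO : T_SFO) {A : Atl n X ι} {f : V n → X}
    {I : Set (V n)} (hs : Sing A f I) {a : ι} {K : Set (V n)} (hKD : K ⊆ Dp n) (hK : IsCompact K)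
    {R : ℝ} (hR : R < 2) (Φ : Fin n → Fin n ⊕ Fin n) (k : Fin n) {G b : V n → ℂ}
    (hGC : ContDiffOn ℝ 1 G (Oa A f I a)) (hG0 : ∀ z ∈ Oa A f I a, G z ≠ 0 → z ∈ K ∩ Cb A f a R)
    (hGb : ∃ C : ℝ, ∀ z ∈ Oa A f I a, ‖G z‖ ≤ C) (hb : DifferentiableOn ℂ b (Oa A f I a))
    (hbD : ∀ z ∈ Oa A f I a, ‖b z‖ ^ 2 ≤ Dm (FF A f a) z)
    (hint : IntegrableOn (fun z => b z * dzb G z (cf (mix Φ (FF A f a)) k z)) (Oa A f I a)) :
    ∫ z in Oa A f I a, b z * dzb G z (cf (mix Φ (FF A f a)) k z) = 0 := by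
  refine hSFO n X ι A f I hs a Φ k K R G b hKD hK hR hGC hG0 hGb hb ?_ hint
  have hm : MeasurableSet (Oa A f I a ∩ (K ∩ Cb A f a R)) := by
    have : Oa A f I a ∩ (K ∩ Cb A f a R) = Oa A f I a ∩ (K ∩ ((Dp n \ I) ∩ Cb A f a R)) := by
      ext z
      constructor
      · rintro ⟨h1, h2, h3⟩
        exact ⟨h1, h2, h1.1, h3⟩
      · rintro ⟨h1, h2, h3, h4⟩
        exact ⟨h1, h2, h4⟩
    rw [this]
    exact (hOAO n X ι A f I hs a).1.measurableSet.inter
      (hK.measurableSet.inter (H15.VG.measurableSet_Cb hOAO hs a hR.le))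
  refine lt_of_le_of_lt (setLIntegral_mono' hm (g := fun z => ENNReal.ofReal (Dm (FF A f a) z))
    fun z hz => ENNReal.ofReal_le_ofReal (hbD z hz.1)) ?_
  refine lt_of_le_of_lt (lintegral_mono_set ?_) (hs.s1 K hKD hK a)
  rintro z ⟨h1, h2, h3, h4⟩
  exact ⟨⟨h2, h1.1.2⟩, h3, Metric.closedBall_subset_closedBall hR.le h4⟩

/-! ### the cutoff `χ` -/

/-- the shell -/
def KK (n : ℕ) : Set (V n) := {z | 1 / 4 ≤ nsq z ∧ nsq z ≤ 1 / 2}

theorem KK_sub : KK n ⊆ Dp n := by
  intro z hz
  constructor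
  · have := hz.1; linarith
  · have := hz.2; linarith

theorem KK_compact : IsCompact (KK n) := by
  refine Metric.isCompact_of_isClosed_isBounded ?_ ?_
  · exact (isClosed_le continuous_const H15.VG.continuous_nsq).inter
      (isClosed_le H15.VG.continuous_nsq continuous_const)
  · exact (Metric.isBounded_ball (x := (0 : V n)) (r := 1)).subset
      (KK_sub.trans H15.VG.Dp_subset_ball)

/-- derivatives of `χ` -/
noncomputable def D (i : Fin n) (z : V n) : ℂ := dr chi z (ek i)

theorem D_zero (hCUT : T_CUT) (i : Fin n) {z : V n} (hz : z ∉ KK n) : D i z = 0 := by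
  have hcont := H15.VG.continuous_nsq (n := n)
  have h1 : ∃ c : ℝ, chi =ᶠ[𝓝 z] fun _ => c := by
    have : (nsq z < 1 / 4) ∨ (1 / 2 < nsq z) := by
      by_contra hcon
      push Not at hcon
      exact hz hcon
    rcases this with h | h
    · refine ⟨1, ?_⟩
      filter_upwards [(isOpen_lt hcont continuous_const).mem_nhds h] with x hx
      exact ((hCUT n).2.2.1 x).2.2.1 (le_of_lt hx)
    · refine ⟨0, ?_⟩
      filter_upwards [(isOpen_lt continuous_const hcont).mem_nhds h] with x hx
      exact ((hCUT n).2.2.1 x).2.2.2 (le_of_lt hx)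
  obtain ⟨c, hc⟩ := h1
  unfold D
  rw [H33.VG.dr_congr hc]
  unfold dr
  simp

theorem D_ev (hCUT : T_CUT) (i : Fin n) {z : V n} (hz : z ∉ KK n) : D i =ᶠ[𝓝 z] fun _ => 0 := by
  filter_upwards [KK_compact.isClosed.isOpen_compl.mem_nhds hz] with x hx
  exact D_zero hCUT i hx

theorem dzbD_zero (hCUT : T_CUT) (i : Fin n) {z : V n} (hz : z ∉ KK n) (v : V n) :
    dzb (D i) z v = 0 := by
  unfold dzb
  rw [(D_ev hCUT i hz).fderiv_eq]
  simp

theorem dzD_zero (hCUT : T_CUT) (i : Fin n) {z : V n} (hz : z ∉ KK n) (v : V n) :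
    dz (D i) z v = 0 := by
  unfold dz
  rw [(D_ev hCUT i hz).fderiv_eq]
  simp

theorem chi_cd2 (hCUT : T_CUT) : ContDiff ℝ 2 (chi (n := n)) :=
  (hCUT n).1.of_le (WithTop.coe_le_coe.2 (le_top : (2 : ℕ∞) ≤ ⊤))

theorem chi_cast_cd2 (hCUT : T_CUT) : ContDiff ℝ 2 (fun x : V n => (chi x : ℂ)) :=
  Complex.ofRealCLM.contDiff.comp (chi_cd2 hCUT)

theorem D_cd1 (hCUT : T_CUT) (i : Fin n) : ContDiff ℝ 1 (D i) :=
  H33.VG.contDiff_dr (chi_cd2 hCUT) _

theorem chi_diff (hCUT : T_CUT) (z : V n) : DifferentiableAt ℝ chi z :=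
  (chi_cd2 hCUT).differentiable (by norm_num) z

theorem D_eq_dz (hLIN : T_LIN) (hCUT : T_CUT) (i : Fin n) :
    D i = fun x => dz (fun x : V n => (chi x : ℂ)) x (ek i) := by
  funext x
  exact (((hLIN n x).2.2.2.1 chi (ek i) (chi_diff hCUT x)).1).symm

/-- the complex Hessian is Hermitian -/
theorem herm (hLIN : T_LIN) (hLVM : T_LVM) (hCUT : T_CUT) (i j : Fin n) (z : V n) :
    dzb (D i) z (ek j) = conj (dzb (D j) z (ek i)) := by
  have h1 := ((hLVM n z 0).1 _ (chi_cast_cd2 hCUT).contDiffAt).1 i j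
  rw [← D_eq_dz hLIN hCUT i] at h1
  rw [h1]
  have h2 : (fun x => dzb (fun x : V n => (chi x : ℂ)) x (ek j)) = fun x => conj (D j x) := by
    funext x
    exact ((hLIN n x).2.2.2.1 chi (ek j) (chi_diff hCUT x)).2
  rw [h2]
  exact ((hLIN n z).2.1 (D j) (ek i) ((D_cd1 hCUT j).differentiable (by norm_num) z)).2

/-- the `(2,0)` part of the Hessian is symmetric -/
theorem symS (hLIN : T_LIN) (hCUT : T_CUT) (i j : Fin n) (z : V n) :
    dz (D i) z (ek j) = dz (D j) z (ek i) := by
  rw [D_eq_dz hLIN hCUT i, D_eq_dz hLIN hCUT j]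
  have hg : ContDiffAt ℝ 2 (fun x : V n => (chi x : ℂ)) z := (chi_cast_cd2 hCUT).contDiffAt
  unfold dz
  have e : ∀ u w : V n, fderiv ℝ (fun x => (fderiv ℝ (fun x : V n => (chi x : ℂ)) x u -
      Complex.I * fderiv ℝ (fun x : V n => (chi x : ℂ)) x (Complex.I • u)) / 2) z w =
      (H73.VG.HH (fun x : V n => (chi x : ℂ)) z w u -
        Complex.I * H73.VG.HH (fun x : V n => (chi x : ℂ)) z w (Complex.I • u)) / 2 :=
    fun u w => H73.VG.fderiv_dz _ z u w hg
  rw [e, e, e, e, H73.VG.HH_symm _ z (ek j) (ek i) hg,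
    H73.VG.HH_symm _ z (ek j) (Complex.I • ek i) hg,
    H73.VG.HH_symm _ z (Complex.I • ek j) (ek i) hg,
    H73.VG.HH_symm _ z (Complex.I • ek j) (Complex.I • ek i) hg]
  ring

/-! ### the two identities on `Oa` -/

section parts

variable [T2Space X]

/-- `(ii)` -/
theorem partII (hSMO : T_SMO) (hLIN : T_LIN) (hPRD : T_PRD) (hCHR : T_CHR) (hPIO : T_PIO)
    (hDOM : T_DOM) (hOAO : T_OAO) (hSFO : T_SFO) (hCUT : T_CUT) {A : Atl n X ι} {f : V n → X}
    {I : Set (V n)} (hs : Sing A f I) (a : ι) {R : ℝ} (hR : R < 2) {p : V n → ℝ}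
    (hp : ContDiff ℝ ∞ p) (hpR : ∀ y, p y ≠ 0 → y ∈ Metric.closedBall (0 : V n) R)
    (hdR : ∀ l y, y ∉ Metric.closedBall (0 : V n) R → dr p y (ek l) = 0)
    (k l : Fin n) :
    ∫ z in Oa A f I a, conj (dr p (FF A f a z) (ek l)) * (conj (jac (FF A f a) z).det *
      dr chi z (cf (FF A f a) k z)) = - ∫ z in Oa A f I a, (p (FF A f a z) : ℂ) *
        ∑ i, cf (FF A f a) k z i * dzb (D i) z (cf (FF A f a) l z) := by
  obtain ⟨hO, hF, -, -, -, -⟩ := hOAO n X ι A f I hs a
  set O := Oa A f I a with hOdef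
  set F := FF A f a with hFdef
  have hFC : ContDiffOn ℝ 1 F O := ((hSMO n (V n) O F hO hF).2.1).of_le (by norm_num)
  have hFd : ∀ z ∈ O, DifferentiableAt ℂ F z := fun z hz =>
    (hF z hz).differentiableAt (hO.mem_nhds hz)
  have hcfd : ∀ k, DifferentiableOn ℂ (cf F k) O := fun k => (hPIO n O F hO hF k).1
  have hcfc : ∀ k i, ContinuousOn (fun z => cf F k z i) O := fun k i =>
    (continuous_apply i).comp_continuousOn (hcfd k).continuousOn
  have hcfD : ∀ z ∈ O, ∀ k i, ‖cf F k z i‖ ^ 2 ≤ Dm F z := fun z hz =>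
    (hDOM n F z (hFd z hz)).2.2.2.2.1
  have hdetD : ∀ z ∈ O, ‖(jac F z).det‖ ^ 2 ≤ Dm F z := fun z hz => (hDOM n F z (hFd z hz)).2.1
  have hdetc : ContinuousOn (fun z => (jac F z).det) O := H15.VG.contOn_det hSMO hO hF
  have hpd : ∀ y, DifferentiableAt ℝ p y := fun y => hp.differentiable (by simp) y
  have hp1 : ContDiff ℝ 1 p := hp.of_le (by norm_num)
  have hpFC : ContDiffOn ℝ 1 (fun z => (p (F z) : ℂ)) O :=
    Complex.ofRealCLM.contDiff.comp_contDiffOn (hp1.comp_contDiffOn hFC)
  have hpFd : ∀ z ∈ O, DifferentiableAt ℝ (fun z => (p (F z) : ℂ)) z := fun z hz =>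
    (hpFC.contDiffAt (hO.mem_nhds hz)).differentiableAt (by norm_num)
  have hpFdr : ∀ z ∈ O, DifferentiableAt ℝ (fun z => p (F z)) z := fun z hz =>
    ((hp1.comp_contDiffOn hFC).contDiffAt (hO.mem_nhds hz)).differentiableAt (by norm_num)
  have hDd : ∀ i (z : V n), DifferentiableAt ℝ (D i) z := fun i z =>
    (D_cd1 hCUT i).differentiable (by norm_num) z
  obtain ⟨Cp, hCp0, hCp⟩ := bdd_of_cpt (isCompact_closedBall (0 : V n) R) hp.continuous
    (fun z hz => by_contra fun h => hz (hpR z h))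
  have hdpc : ∀ l, Continuous (fun y => dr p y (ek l)) := fun l =>
    (H33.VG.contDiff_dr (hp.of_le (WithTop.coe_le_coe.2 (le_top : (2 : ℕ∞) ≤ ⊤))) _).continuous
  obtain ⟨Cl, hCl0, hCl⟩ := bdd_of_cpt (isCompact_closedBall (0 : V n) R) (hdpc l) (hdR l)
  have hDc : ∀ i, Continuous (D (n := n) i) := fun i => (D_cd1 hCUT i).continuous
  have hHc : ∀ i j, Continuous (fun z : V n => dzb (D i) z (ek j)) := by
    intro i j
    have := H33.VG.continuousOn_dzb (G := D i) (X := fun _ : V n => ek j) isOpen_univ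
      (D_cd1 hCUT i).contDiffOn continuousOn_const
    rwa [continuousOn_univ] at this
  have hCb : ∀ z ∈ O, F z ∈ Metric.closedBall (0 : V n) R → z ∈ Cb A f a R := fun z hz h =>
    ⟨hz.2.1, h⟩
  -- the two kinds of terms
  have hT1j : ∀ i j, IntegrableOn (fun z => cf F k z i * conj (cf F l z j) *
      ((p (F z) : ℂ) * dzb (D i) z (ek j))) O := by
    intro i j
    obtain ⟨CH, hCH0, hCH⟩ := bdd_of_cpt KK_compact (hHc i j)
      (fun z hz => dzbD_zero hCUT i hz (ek j))
    refine int_uvc hs hO KK_sub KK_compact hR (hcfc k i)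
      (Complex.continuous_conj.comp_continuousOn (hcfc l j))
      (hpFC.continuousOn.mul (hHc i j).continuousOn) (fun z hz => hcfD z hz k i)
      (fun z hz => by rw [RCLike.norm_conj]; exact hcfD z hz l j) (C := Cp * CH) ?_ ?_
    · intro z hz
      rw [norm_mul, Complex.norm_real]
      exact mul_le_mul (hCp _) (hCH z) (norm_nonneg _) hCp0
    · intro z hz hne
      refine ⟨by_contra fun h => hne ?_, hCb z hz (hpR _ fun h => hne ?_)⟩
      · rw [dzbD_zero hCUT i h, mul_zero]
      · rw [h]; simp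
  have hT2 : ∀ i, IntegrableOn (fun z => cf F k z i * conj (jac F z).det *
      (D i z * conj (dr p (F z) (ek l)))) O := by
    intro i
    obtain ⟨CD, hCD0, hCD⟩ := bdd_of_cpt KK_compact (hDc i) (fun z hz => D_zero hCUT i hz)
    refine int_uvc hs hO KK_sub KK_compact hR (hcfc k i)
      (Complex.continuous_conj.comp_continuousOn hdetc)
      ((hDc i).continuousOn.mul (Complex.continuous_conj.comp_continuousOn
        ((hdpc l).comp_continuousOn hF.continuousOn))) (fun z hz => hcfD z hz k i)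
      (fun z hz => by rw [RCLike.norm_conj]; exact hdetD z hz) (C := CD * Cl) ?_ ?_
    · intro z hz
      rw [norm_mul, RCLike.norm_conj]
      exact mul_le_mul (hCD _) (hCl _) (norm_nonneg _) hCD0
    · intro z hz hne
      refine ⟨by_contra fun h => hne ?_, hCb z hz (by_contra fun h => hne ?_)⟩
      · rw [D_zero hCUT i h, zero_mul]
      · rw [hdR l _ h]; simp
  have hexp : ∀ i z, (p (F z) : ℂ) * (cf F k z i * dzb (D i) z (cf F l z)) =
      ∑ j, cf F k z i * conj (cf F l z j) * ((p (F z) : ℂ) * dzb (D i) z (ek j)) := by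
    intro i z
    rw [((hLIN n z).1 (D i) 0 (cf F l z) 1).2.2.2.2.2.1, Finset.mul_sum, Finset.mul_sum]
    refine Finset.sum_congr rfl fun j _ => ?_
    ring
  have hT1 : ∀ i, IntegrableOn (fun z => (p (F z) : ℂ) *
      (cf F k z i * dzb (D i) z (cf F l z))) O := by
    intro i
    have h := integrable_finsetSum Finset.univ (fun j _ => hT1j i j)
    refine h.congr (Eventually.of_forall fun z => ?_)
    simp only
    rw [hexp i z]
  have hterm : ∀ z ∈ O, ∀ i, cf F k z i * dzb (fun z => (p (F z) : ℂ) * D i z) z (cf F l z) =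
      (p (F z) : ℂ) * (cf F k z i * dzb (D i) z (cf F l z)) +
        cf F k z i * conj (jac F z).det * (D i z * conj (dr p (F z) (ek l))) := by
    intro z hz i
    have h1 := ((hPRD n z (cf F l z)).1 (fun z => (p (F z) : ℂ)) (D i) (hpFd z hz) (hDd i z)).2
    have h2 := ((hLIN n z).2.2.2.1 (fun z => p (F z)) (cf F l z) (hpFdr z hz)).2
    have h3 := (hCHR n O F hO hF z hz l).2.2.1 p (hpd _)
    rw [h1, h2, h3, map_mul]
    ring
  have hzero : ∀ i, (∫ z in O, (p (F z) : ℂ) * (cf F k z i * dzb (D i) z (cf F l z))) +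
      (∫ z in O, cf F k z i * conj (jac F z).det * (D i z * conj (dr p (F z) (ek l)))) = 0 := by
    intro i
    rw [← integral_add (hT1 i) (hT2 i)]
    have hmix : mix (fun i => Sum.inr i) F = F := by
      funext z i; simp [mix]
    have h1 := sfo' hOAO hSFO hs (a := a) KK_sub KK_compact hR (fun i => Sum.inr i) l
      (G := fun z => (p (F z) : ℂ) * D i z) (b := fun z => cf F k z i)
      (hpFC.mul (D_cd1 hCUT i).contDiffOn) (by
        intro z hz hne
        refine ⟨by_contra fun h => hne ?_, hCb z hz (hpR _ fun h => hne ?_)⟩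
        · rw [D_zero hCUT i h, mul_zero]
        · rw [h]; simp) (by
        obtain ⟨CD, hCD0, hCD⟩ := bdd_of_cpt KK_compact (hDc i) (fun z hz => D_zero hCUT i hz)
        refine ⟨Cp * CD, fun z _ => ?_⟩
        rw [norm_mul, Complex.norm_real]
        exact mul_le_mul (hCp _) (hCD z) (norm_nonneg _) hCp0)
      ((differentiableOn_pi.1 (hcfd k)) i) (fun z hz => hcfD z hz k i) (by
        rw [← hFdef, hmix]
        refine ((hT1 i).add (hT2 i)).congr_fun (fun z hz => ?_) hO.measurableSet
        exact (hterm z hz i).symm)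
    rw [← hFdef, hmix] at h1
    rw [← h1]
    refine setIntegral_congr_fun hO.measurableSet fun z hz => ?_
    exact (hterm z hz i).symm
  have e1 : ∫ z in O, conj (dr p (F z) (ek l)) * (conj (jac F z).det * dr chi z (cf F k z)) =
      ∑ i, ∫ z in O, cf F k z i * conj (jac F z).det * (D i z * conj (dr p (F z) (ek l))) := by
    rw [← integral_finsetSum _ fun i _ => hT2 i]
    refine setIntegral_congr_fun hO.measurableSet fun z hz => ?_
    rw [((hLIN n z).2.2.2.2 chi (cf F k z)).1, Finset.mul_sum, Finset.mul_sum]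
    refine Finset.sum_congr rfl fun i _ => ?_
    show _ = cf F k z i * conj (jac F z).det * (dr chi z (ek i) * conj (dr p (F z) (ek l)))
    ring
  have e2 : ∫ z in O, (p (F z) : ℂ) * ∑ i, cf F k z i * dzb (D i) z (cf F l z) =
      ∑ i, ∫ z in O, (p (F z) : ℂ) * (cf F k z i * dzb (D i) z (cf F l z)) := by
    rw [← integral_finsetSum _ fun i _ => hT1 i]
    refine setIntegral_congr_fun hO.measurableSet fun z hz => ?_
    rw [Finset.mul_sum]
  rw [e1, e2, ← Finset.sum_neg_distrib]
  refine Finset.sum_congr rfl fun i _ => ?_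
  exact eq_neg_of_add_eq_zero_right (hzero i)

/-- the choice of rows -/
def Ph (k i : Fin n) : Fin n → Fin n ⊕ Fin n := Function.update (fun m => Sum.inr m) k (Sum.inl i)

open H73.VG in
theorem cf_mix (hDOM : T_DOM) {F : V n → V n} {z : V n} (hF : DifferentiableAt ℂ F z)
    (k l i j : Fin n) : cf (mix (Ph k i) F) l z j =
      DD n (Function.update (Function.update (RR F z) k (ek i)) l (ek j)) := by
  rw [cf_eq]
  congr 2
  funext m
  have h := (hDOM n F z hF).2.2.2.2.2.1 (Ph k i) m
  have h2 : RR (mix (Ph k i) F) z m = jac (mix (Ph k i) F) z m := rfl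
  rw [h2, h]
  by_cases hm : m = k
  · subst hm
    simp [Ph]
  · simp only [Ph, Function.update_of_ne hm]
    rfl

open H73.VG in
/-- the derivative of `F` on the mixed cofactor field -/
theorem fderiv_mix (hDOM : T_DOM) {F : V n → V n} {z : V n} (hF : DifferentiableAt ℂ F z)
    (k l i m : Fin n) (hkl : l ≠ k) : fderiv ℂ F z (cf (mix (Ph k i) F) l z) m =
      if m = l then cf F k z i else if m = k then - cf F l z i else 0 := by
  have h1 : fderiv ℂ F z (cf (mix (Ph k i) F) l z) m =
      ∑ j, RR F z m j * DD n (Function.update (Function.update (RR F z) k (ek i)) l (ek j)) := by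
    conv_lhs => rw [sum_ek (cf (mix (Ph k i) F) l z)]
    rw [map_sum, Finset.sum_apply]
    refine Finset.sum_congr rfl fun j _ => ?_
    rw [map_smul, Pi.smul_apply, smul_eq_mul, cf_mix hDOM hF, mul_comm]
    rfl
  rw [h1, expand]
  by_cases hml : m = l
  · subst hml
    rw [if_pos rfl, cf_eq]
    congr 1
    funext q
    by_cases hq : q = m
    · subst hq
      simp [Function.update_of_ne hkl]
    · simp [Function.update_of_ne hq]
  · rw [if_neg hml]
    by_cases hmk : m = k
    · subst hmk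
      rw [if_pos rfl, swapV _ _ _ hkl, Function.update_eq_self, cf_eq]
    · rw [if_neg hmk]
      have := eqrows (Function.update (RR F z) k (ek i)) l m hml
      rwa [Function.update_of_ne hmk] at this

theorem cf_mix_anti (hDOM : T_DOM) {F : V n → V n} {z : V n} (hF : DifferentiableAt ℂ F z)
    (k l i j : Fin n) (hkl : l ≠ k) : cf (mix (Ph k i) F) l z j = - cf (mix (Ph k j) F) l z i := by
  rw [cf_mix hDOM hF, cf_mix hDOM hF, swapV _ _ _ hkl]

/-- `(i)` -/
theorem partI (hSMO : T_SMO) (hLIN : T_LIN) (hPRD : T_PRD) (hCHN : T_CHN) (hPIO : T_PIO)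
    (hDOM : T_DOM) (hOAO : T_OAO) (hSFO : T_SFO) (hCUT : T_CUT) {A : Atl n X ι} {f : V n → X}
    {I : Set (V n)} (hs : Sing A f I) (a : ι) {R : ℝ} (hR : R < 2) {p : V n → ℝ}
    (hp : ContDiff ℝ ∞ p) (hpR : ∀ y, p y ≠ 0 → y ∈ Metric.closedBall (0 : V n) R)
    (hdR : ∀ l y, y ∉ Metric.closedBall (0 : V n) R → dr p y (ek l) = 0)
    (k l : Fin n) (hkl : l ≠ k) :
    ∫ z in Oa A f I a, dr p (FF A f a z) (ek l) * (conj (jac (FF A f a) z).det *
      dr chi z (cf (FF A f a) k z)) =
    ∫ z in Oa A f I a, dr p (FF A f a z) (ek k) * (conj (jac (FF A f a) z).det *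
      dr chi z (cf (FF A f a) l z)) := by
  obtain ⟨hO, hF, -, -, -, -⟩ := hOAO n X ι A f I hs a
  set O := Oa A f I a with hOdef
  set F := FF A f a with hFdef
  have hFC : ContDiffOn ℝ 1 F O := ((hSMO n (V n) O F hO hF).2.1).of_le (by norm_num)
  have hFd : ∀ z ∈ O, DifferentiableAt ℂ F z := fun z hz =>
    (hF z hz).differentiableAt (hO.mem_nhds hz)
  have hcfd : ∀ k, DifferentiableOn ℂ (cf F k) O := fun k => (hPIO n O F hO hF k).1
  have hcfc : ∀ k i, ContinuousOn (fun z => cf F k z i) O := fun k i =>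
    (continuous_apply i).comp_continuousOn (hcfd k).continuousOn
  have hcfD : ∀ z ∈ O, ∀ k i, ‖cf F k z i‖ ^ 2 ≤ Dm F z := fun z hz =>
    (hDOM n F z (hFd z hz)).2.2.2.2.1
  have hdetD : ∀ z ∈ O, ‖(jac F z).det‖ ^ 2 ≤ Dm F z := fun z hz => (hDOM n F z (hFd z hz)).2.1
  have hdetc : ContinuousOn (fun z => (jac F z).det) O := H15.VG.contOn_det hSMO hO hF
  have hdetd : DifferentiableOn ℂ (fun z => (jac F z).det) O := by
    have e : (fun z => (jac F z).det) = fun z => H73.VG.DD n (H73.VG.RR F z) := rfl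
    rw [e]
    have h1 : ∀ m, DifferentiableOn ℂ (fun z => H73.VG.RR F z m) O := by
      intro m
      refine differentiableOn_pi.2 fun j => ?_
      exact (differentiableOn_pi.1 ((hSMO n (V n) O F hO hF).2.2 (ek j))) m
    have h2 : DifferentiableOn ℂ (fun z => H73.VG.RR F z) O := differentiableOn_pi.2 h1
    intro z hz
    exact (((H73.VG.DD n).hasFDerivAt (H73.VG.RR F z)).differentiableAt).comp_differentiableWithinAt
      z (h2 z hz)
  have hmd : ∀ i, DifferentiableOn ℂ (mix (Ph k i) F) O := by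
    intro i
    refine differentiableOn_pi.2 fun m => ?_
    unfold mix
    rcases Ph k i m with j | j
    · exact (differentiable_apply j).differentiableOn
    · exact (differentiableOn_pi.1 hF) j
  have hWc : ∀ i j, ContinuousOn (fun z => cf (mix (Ph k i) F) l z j) O := fun i j =>
    (continuous_apply j).comp_continuousOn (H15.VG.contOn_cf hSMO hO (hmd i) l)
  have hWD : ∀ z ∈ O, ∀ i j, ‖cf (mix (Ph k i) F) l z j‖ ^ 2 ≤ Dm F z := fun z hz i j =>
    (hDOM n F z (hFd z hz)).2.2.2.1 (Ph k i) l j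
  have hpd : ∀ y, DifferentiableAt ℝ p y := fun y => hp.differentiable (by simp) y
  have hp1 : ContDiff ℝ 1 p := hp.of_le (by norm_num)
  have hpFC : ContDiffOn ℝ 1 (fun z => (p (F z) : ℂ)) O :=
    Complex.ofRealCLM.contDiff.comp_contDiffOn (hp1.comp_contDiffOn hFC)
  have hpFd : ∀ z ∈ O, DifferentiableAt ℝ (fun z => (p (F z) : ℂ)) z := fun z hz =>
    (hpFC.contDiffAt (hO.mem_nhds hz)).differentiableAt (by norm_num)
  have hpFdr : ∀ z ∈ O, DifferentiableAt ℝ (fun z => p (F z)) z := fun z hz =>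
    ((hp1.comp_contDiffOn hFC).contDiffAt (hO.mem_nhds hz)).differentiableAt (by norm_num)
  have hDd : ∀ i (z : V n), DifferentiableAt ℝ (D i) z := fun i z =>
    (D_cd1 hCUT i).differentiable (by norm_num) z
  have hDcC : ∀ i, ContDiff ℝ 1 (fun z : V n => conj (D i z)) := fun i =>
    Complex.conjCLE.contDiff.comp (D_cd1 hCUT i)
  have hDcd : ∀ i (z : V n), DifferentiableAt ℝ (fun z => conj (D i z)) z := fun i z =>
    (hDcC i).differentiable (by norm_num) z
  obtain ⟨Cp, hCp0, hCp⟩ := bdd_of_cpt (isCompact_closedBall (0 : V n) R) hp.continuous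
    (fun z hz => by_contra fun h => hz (hpR z h))
  have hdpc : ∀ l, Continuous (fun y => dr p y (ek l)) := fun l =>
    (H33.VG.contDiff_dr (hp.of_le (WithTop.coe_le_coe.2 (le_top : (2 : ℕ∞) ≤ ⊤))) _).continuous
  have hDc : ∀ i, Continuous (D (n := n) i) := fun i => (D_cd1 hCUT i).continuous
  have hSc : ∀ i j, Continuous (fun z : V n => dz (D i) z (ek j)) := by
    intro i j
    have h1 : Continuous (fderiv ℝ (D (n := n) i)) := (D_cd1 hCUT i).continuous_fderiv (by norm_num)
    unfold dz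
    have h2 : Continuous (fun z => fderiv ℝ (D (n := n) i) z (ek j)) := h1.clm_apply continuous_const
    have h3 : Continuous (fun z => fderiv ℝ (D (n := n) i) z (Complex.I • ek j)) :=
      h1.clm_apply continuous_const
    exact (h2.sub (continuous_const.mul h3)).div_const 2
  have hCb : ∀ z ∈ O, F z ∈ Metric.closedBall (0 : V n) R → z ∈ Cb A f a R := fun z hz h =>
    ⟨hz.2.1, h⟩
  have hT3j : ∀ i j, IntegrableOn (fun z => (jac F z).det * conj (cf (mix (Ph k i) F) l z j) *
      ((p (F z) : ℂ) * conj (dz (D i) z (ek j)))) O := by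
    intro i j
    obtain ⟨CH, hCH0, hCH⟩ := bdd_of_cpt KK_compact (hSc i j)
      (fun z hz => dzD_zero hCUT i hz (ek j))
    refine int_uvc hs hO KK_sub KK_compact hR hdetc
      (Complex.continuous_conj.comp_continuousOn (hWc i j))
      (hpFC.continuousOn.mul (Complex.continuous_conj.comp (hSc i j)).continuousOn) hdetD
      (fun z hz => by rw [RCLike.norm_conj]; exact hWD z hz i j) (C := Cp * CH) ?_ ?_
    · intro z hz
      rw [norm_mul, Complex.norm_real, RCLike.norm_conj]
      exact mul_le_mul (hCp _) (hCH z) (norm_nonneg _) hCp0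
    · intro z hz hne
      refine ⟨by_contra fun h => hne ?_, hCb z hz (hpR _ fun h => hne ?_)⟩
      · rw [dzD_zero hCUT i h, map_zero, mul_zero]
      · rw [h]; simp
  have hT4 : ∀ i k' l', IntegrableOn (fun z => (jac F z).det * conj (cf F k' z i) *
      (conj (D i z) * conj (dr p (F z) (ek l')))) O := by
    intro i k' l'
    obtain ⟨Cl, hCl0, hCl⟩ := bdd_of_cpt (isCompact_closedBall (0 : V n) R) (hdpc l') (hdR l')
    obtain ⟨CD, hCD0, hCD⟩ := bdd_of_cpt KK_compact (hDc i) (fun z hz => D_zero hCUT i hz)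
    refine int_uvc hs hO KK_sub KK_compact hR hdetc
      (Complex.continuous_conj.comp_continuousOn (hcfc k' i))
      ((Complex.continuous_conj.comp (hDc i)).continuousOn.mul
        (Complex.continuous_conj.comp_continuousOn
        ((hdpc l').comp_continuousOn hF.continuousOn))) hdetD
      (fun z hz => by rw [RCLike.norm_conj]; exact hcfD z hz k' i) (C := CD * Cl) ?_ ?_
    · intro z hz
      rw [norm_mul, RCLike.norm_conj, RCLike.norm_conj]
      exact mul_le_mul (hCD _) (hCl _) (norm_nonneg _) hCD0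
    · intro z hz hne
      refine ⟨by_contra fun h => hne ?_, hCb z hz (by_contra fun h => hne ?_)⟩
      · rw [D_zero hCUT i h, map_zero, zero_mul]
      · rw [hdR l' _ h]; simp
  have hT3 : ∀ i, IntegrableOn (fun z => ∑ j, (jac F z).det * conj (cf (mix (Ph k i) F) l z j) *
      ((p (F z) : ℂ) * conj (dz (D i) z (ek j)))) O := fun i =>
    integrable_finsetSum Finset.univ (fun j _ => hT3j i j)
  have hterm : ∀ z ∈ O, ∀ i, (jac F z).det *
      dzb (fun z => (p (F z) : ℂ) * conj (D i z)) z (cf (mix (Ph k i) F) l z) =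
      (∑ j, (jac F z).det * conj (cf (mix (Ph k i) F) l z j) *
        ((p (F z) : ℂ) * conj (dz (D i) z (ek j)))) +
      ((jac F z).det * conj (cf F k z i) * (conj (D i z) * conj (dr p (F z) (ek l))) -
       (jac F z).det * conj (cf F l z i) * (conj (D i z) * conj (dr p (F z) (ek k)))) := by
    intro z hz i
    have h1 := ((hPRD n z (cf (mix (Ph k i) F) l z)).1 (fun z => (p (F z) : ℂ))
      (fun z => conj (D i z)) (hpFd z hz) (hDcd i z)).2
    have h2 := ((hLIN n z).2.2.2.1 (fun z => p (F z)) (cf (mix (Ph k i) F) l z) (hpFdr z hz)).2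
    have h3 := (hCHN n O F hO hF z hz (cf (mix (Ph k i) F) l z)).2.1 p (hpd _)
    have h4 := ((hLIN n z).2.1 (D i) (cf (mix (Ph k i) F) l z) (hDd i z)).1
    have h5 : dz (D i) z (cf (mix (Ph k i) F) l z) =
        ∑ j, cf (mix (Ph k i) F) l z j * dz (D i) z (ek j) :=
      ((hLIN n z).1 (D i) 0 (cf (mix (Ph k i) F) l z) 1).2.2.2.2.1
    have h6 : dr p (F z) (fderiv ℂ F z (cf (mix (Ph k i) F) l z)) =
        cf F k z i * dr p (F z) (ek l) - cf F l z i * dr p (F z) (ek k) := by
      rw [((hLIN n (F z)).2.2.2.2 p _).1]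
      have h7 : ∀ m, fderiv ℂ F z (cf (mix (Ph k i) F) l z) m * dr p (F z) (ek m) =
          (if m = l then cf F k z i * dr p (F z) (ek l) else 0) +
          (if m = k then - (cf F l z i * dr p (F z) (ek k)) else 0) := by
        intro m
        rw [fderiv_mix hDOM (hFd z hz) k l i m hkl]
        by_cases hml : m = l
        · subst hml
          simp [hkl]
        · by_cases hmk : m = k
          · subst hmk
            simp [hml]
          · simp [hml, hmk]
      rw [Finset.sum_congr rfl fun m _ => h7 m, Finset.sum_add_distrib]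
      simp
      ring
    rw [h1, h2, h3, h4, h5, h6, map_sum, map_sub, map_mul, map_mul, mul_add]
    congr 1
    · rw [Finset.mul_sum, Finset.mul_sum]
      refine Finset.sum_congr rfl fun j _ => ?_
      rw [map_mul]
      ring
    · ring
  have hzero : ∀ i, (∫ z in O, ∑ j, (jac F z).det * conj (cf (mix (Ph k i) F) l z j) *
        ((p (F z) : ℂ) * conj (dz (D i) z (ek j)))) +
      ((∫ z in O, (jac F z).det * conj (cf F k z i) *
        (conj (D i z) * conj (dr p (F z) (ek l)))) -
       (∫ z in O, (jac F z).det * conj (cf F l z i) *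
        (conj (D i z) * conj (dr p (F z) (ek k))))) = 0 := by
    intro i
    have hT45 : IntegrableOn (fun z => (jac F z).det * conj (cf F k z i) *
        (conj (D i z) * conj (dr p (F z) (ek l))) - (jac F z).det * conj (cf F l z i) *
        (conj (D i z) * conj (dr p (F z) (ek k)))) O := (hT4 i k l).sub (hT4 i l k)
    rw [← integral_sub (hT4 i k l) (hT4 i l k), ← integral_add (hT3 i) hT45]
    have h1 := sfo' hOAO hSFO hs (a := a) KK_sub KK_compact hR (Ph k i) l
      (G := fun z => (p (F z) : ℂ) * conj (D i z)) (b := fun z => (jac F z).det)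
      (hpFC.mul (hDcC i).contDiffOn) (by
        intro z hz hne
        refine ⟨by_contra fun h => hne ?_, hCb z hz (hpR _ fun h => hne ?_)⟩
        · rw [D_zero hCUT i h, map_zero, mul_zero]
        · rw [h]; simp) (by
        obtain ⟨CD, hCD0, hCD⟩ := bdd_of_cpt KK_compact (hDc i) (fun z hz => D_zero hCUT i hz)
        refine ⟨Cp * CD, fun z _ => ?_⟩
        rw [norm_mul, Complex.norm_real, RCLike.norm_conj]
        exact mul_le_mul (hCp _) (hCD z) (norm_nonneg _) hCp0)
      hdetd hdetD (by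
        refine ((hT3 i).add hT45).congr_fun (fun z hz => ?_)
          hO.measurableSet
        exact (hterm z hz i).symm)
    rw [← h1]
    refine setIntegral_congr_fun hO.measurableSet fun z hz => ?_
    exact (hterm z hz i).symm
  have hT30 : ∑ i, (∫ z in O, ∑ j, (jac F z).det * conj (cf (mix (Ph k i) F) l z j) *
        ((p (F z) : ℂ) * conj (dz (D i) z (ek j)))) = 0 := by
    rw [← integral_finsetSum _ fun i _ => hT3 i]
    rw [← integral_zero (V n) ℂ (μ := volume.restrict O)]
    refine setIntegral_congr_fun hO.measurableSet fun z hz => ?_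
    have h1 : (∑ i, ∑ j, (jac F z).det * conj (cf (mix (Ph k i) F) l z j) *
        ((p (F z) : ℂ) * conj (dz (D i) z (ek j)))) =
        - ∑ i, ∑ j, (jac F z).det * conj (cf (mix (Ph k i) F) l z j) *
        ((p (F z) : ℂ) * conj (dz (D i) z (ek j))) := by
      conv_lhs => rw [Finset.sum_comm]
      rw [← Finset.sum_neg_distrib]
      refine Finset.sum_congr rfl fun i _ => ?_
      rw [← Finset.sum_neg_distrib]
      refine Finset.sum_congr rfl fun j _ => ?_
      rw [cf_mix_anti hDOM (hFd z hz) k l j i hkl, symS hLIN hCUT j i z, map_neg]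
      ring
    exact self_eq_neg.1 h1
  have hsum : ∑ i, (∫ z in O, (jac F z).det * conj (cf F k z i) *
        (conj (D i z) * conj (dr p (F z) (ek l)))) =
      ∑ i, (∫ z in O, (jac F z).det * conj (cf F l z i) *
        (conj (D i z) * conj (dr p (F z) (ek k)))) := by
    have h := Finset.sum_eq_zero (s := Finset.univ) (f := fun i =>
      (∫ z in O, ∑ j, (jac F z).det * conj (cf (mix (Ph k i) F) l z j) *
        ((p (F z) : ℂ) * conj (dz (D i) z (ek j)))) +
      ((∫ z in O, (jac F z).det * conj (cf F k z i) *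
        (conj (D i z) * conj (dr p (F z) (ek l)))) -
       (∫ z in O, (jac F z).det * conj (cf F l z i) *
        (conj (D i z) * conj (dr p (F z) (ek k)))))) (fun i _ => hzero i)
    rw [Finset.sum_add_distrib, Finset.sum_sub_distrib, hT30, zero_add] at h
    exact sub_eq_zero.1 h
  have e : ∀ k' l' : Fin n, ∫ z in O, dr p (F z) (ek l') * (conj (jac F z).det *
      dr chi z (cf F k' z)) = conj (∑ i, (∫ z in O, (jac F z).det * conj (cf F k' z i) *
        (conj (D i z) * conj (dr p (F z) (ek l'))))) := by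
    intro k' l'
    rw [← integral_finsetSum _ fun i _ => hT4 i k' l', ← integral_conj]
    refine setIntegral_congr_fun hO.measurableSet fun z hz => ?_
    rw [map_sum]
    rw [((hLIN n z).2.2.2.2 chi (cf F k' z)).1, Finset.mul_sum, Finset.mul_sum]
    refine Finset.sum_congr rfl fun i _ => ?_
    simp only [map_mul, Complex.conj_conj]
    show _ = conj (jac F z).det * cf F k' z i * (dr chi z (ek i) * dr p (F z) (ek l'))
    ring
  rw [e, e, hsum]

end parts

/-- Module WCA. -/
theorem wca (hSMO : T_SMO) (hLIN : T_LIN) (hPRD : T_PRD) (hLVM : T_LVM) (hCHN : T_CHN)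
    (hCHR : T_CHR) (hPIO : T_PIO) (hDOM : T_DOM) (hOAO : T_OAO) (hSFO : T_SFO) (hCUT : T_CUT) :
    T_WCA := by
  intro n X _ _ ι A f I β hs hP a p hp hpc hpt v v'
  obtain ⟨R, hR, hRt'⟩ := exists_lt_subset_ball (isClosed_tsupport p) hpt
  have hRt : tsupport p ⊆ Metric.closedBall (0 : V n) R := hRt'.trans Metric.ball_subset_closedBall
  have hpR : ∀ y, p y ≠ 0 → y ∈ Metric.closedBall (0 : V n) R := fun y hy =>
    hRt (subset_tsupport p hy)
  have hdR : ∀ l y, y ∉ Metric.closedBall (0 : V n) R → dr p y (ek l) = 0 := by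
    intro l y hy
    have h1 : p =ᶠ[𝓝 y] fun _ => 0 := by
      filter_upwards [Metric.isClosed_closedBall.isOpen_compl.mem_nhds hy] with x hx
      by_contra hne
      exact hx (hpR x hne)
    rw [H33.VG.dr_congr h1]
    unfold dr
    simp
  set Q : Set (V n) := Metric.ball (0 : V n) 2 with hQ
  have hdpc : ∀ l, Continuous (fun y => dr p y (ek l)) := fun l =>
    (H33.VG.contDiff_dr (hp.of_le (WithTop.coe_le_coe.2 (le_top : (2 : ℕ∞) ≤ ⊤))) _).continuous
  have hdpb : ∀ l, ∃ C : ℝ, ∀ y, ‖dr p y (ek l)‖ ≤ C := fun l => by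
    obtain ⟨C, -, hC⟩ := bdd_of_cpt (isCompact_closedBall (0 : V n) R) (hdpc l) (hdR l)
    exact ⟨C, hC⟩
  have hα : ∀ k, IntegrableOn (fun y => b10 (β a y) (ek k)) Q := by
    intro k
    have h := (Lb (ek k : V n)).integrable_comp (hP.int a)
    refine h.congr (Eventually.of_forall fun y => ?_)
    exact Lb_apply (ek k) (β a y)
  have hE := fun k (q : V n → ℂ) hq1 hq2 => (hP.push a k q hq1 hq2).2
  -- integrability of the products
  have i1 : ∀ k l, IntegrableOn (fun y => dr p y (ek l) * b10 (β a y) (ek k)) Q := by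
    intro k l
    obtain ⟨C, hC⟩ := hdpb l
    exact (hα k).bdd_mul (hdpc l).aestronglyMeasurable (Eventually.of_forall hC)
  have i2 : ∀ k l, IntegrableOn (fun y => conj (dr p y (ek l)) * b10 (β a y) (ek k)) Q := by
    intro k l
    obtain ⟨C, hC⟩ := hdpb l
    exact (hα k).bdd_mul (Complex.continuous_conj.comp (hdpc l)).aestronglyMeasurable
      (Eventually.of_forall fun y => by
        show ‖conj (dr p y (ek l))‖ ≤ C
        rw [RCLike.norm_conj]; exact hC y)
  have i2c : ∀ k l, IntegrableOn (fun y => dr p y (ek l) * conj (b10 (β a y) (ek k))) Q := by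
    intro k l
    have h := Complex.conjCLE.toContinuousLinearMap.integrable_comp (i2 k l)
    refine h.congr (Eventually.of_forall fun y => ?_)
    simp
  have hX : ∀ k l, ∫ y in Q, (dr p y (ek l) * b10 (β a y) (ek k) -
      dr p y (ek k) * b10 (β a y) (ek l)) = 0 := by
    intro k l
    by_cases hkl : l = k
    · subst hkl
      simp
    · rw [integral_sub (i1 k l) (i1 l k), hE k _ (hdpc l) (hdpb l), hE l _ (hdpc k) (hdpb k),
        sub_eq_zero]
      exact partI hSMO hLIN hPRD hCHN hPIO hDOM hOAO hSFO hCUT hs a hR hp hpR hdR k l hkl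
  have hY : ∀ k l, ∫ y in Q, (conj (dr p y (ek l)) * b10 (β a y) (ek k) -
      dr p y (ek k) * conj (b10 (β a y) (ek l))) = 0 := by
    intro k l
    have hc : ∀ l, Continuous (fun y => conj (dr p y (ek l))) := fun l =>
      Complex.continuous_conj.comp (hdpc l)
    have hb : ∀ l, ∃ C : ℝ, ∀ y, ‖conj (dr p y (ek l))‖ ≤ C := fun l => by
      obtain ⟨C, hC⟩ := hdpb l
      exact ⟨C, fun y => by rw [RCLike.norm_conj]; exact hC y⟩
    rw [integral_sub (i2 k l) (i2c l k), hE k _ (hc l) (hb l)]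
    have e1 : ∫ y in Q, dr p y (ek k) * conj (b10 (β a y) (ek l)) =
        conj (∫ y in Q, conj (dr p y (ek k)) * b10 (β a y) (ek l)) := by
      rw [← integral_conj]
      refine integral_congr_ae (Eventually.of_forall fun y => ?_)
      simp
    rw [e1, hE l _ (hc k) (hb k),
      partII hSMO hLIN hPRD hCHR hPIO hDOM hOAO hSFO hCUT hs a hR hp hpR hdR k l,
      partII hSMO hLIN hPRD hCHR hPIO hDOM hOAO hSFO hCUT hs a hR hp hpR hdR l k, map_neg,
      ← integral_conj, sub_neg_eq_add, neg_add_eq_zero]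
    refine integral_congr_ae (Eventually.of_forall fun z => ?_)
    simp only [map_mul, map_sum, Complex.conj_ofReal]
    congr 1
    have h : ∀ i (w : V n), dzb (D i) z w = ∑ j, conj (w j) * dzb (D i) z (ek j) := fun i w =>
      ((hLIN n z).1 (D i) 0 w 1).2.2.2.2.2.1
    calc ∑ i, cf (FF A f a) k z i * dzb (D i) z (cf (FF A f a) l z)
        = ∑ i, ∑ j, cf (FF A f a) k z i * (conj (cf (FF A f a) l z j) * dzb (D i) z (ek j)) := by
          refine Finset.sum_congr rfl fun i _ => ?_
          rw [h, Finset.mul_sum]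
      _ = ∑ j, ∑ i, cf (FF A f a) k z i * (conj (cf (FF A f a) l z j) * dzb (D i) z (ek j)) :=
          Finset.sum_comm
      _ = ∑ i, conj (cf (FF A f a) l z i) * conj (dzb (D i) z (cf (FF A f a) k z)) := by
          refine Finset.sum_congr rfl fun i _ => ?_
          rw [h i, map_sum, Finset.mul_sum]
          refine Finset.sum_congr rfl fun j _ => ?_
          rw [herm hLIN hLVM hCUT j i z, map_mul, Complex.conj_conj]
          ring
  -- the final identity
  set Z : V n → ℂ := fun y => ∑ k, ∑ l, (v k * v' l * (dr p y (ek l) * b10 (β a y) (ek k) -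
      dr p y (ek k) * b10 (β a y) (ek l)) + v k * conj (v' l) * (conj (dr p y (ek l)) *
      b10 (β a y) (ek k) - dr p y (ek k) * conj (b10 (β a y) (ek l)))) with hZ
  have hZi' : ∀ k l, IntegrableOn (fun y => v k * v' l * (dr p y (ek l) * b10 (β a y) (ek k) -
      dr p y (ek k) * b10 (β a y) (ek l)) + v k * conj (v' l) * (conj (dr p y (ek l)) *
      b10 (β a y) (ek k) - dr p y (ek k) * conj (b10 (β a y) (ek l)))) Q := fun k l =>
    (((i1 k l).sub (i1 l k)).const_mul _).add (((i2 k l).sub (i2c l k)).const_mul _)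
  have hZi : IntegrableOn Z Q :=
    integrable_finsetSum _ fun k _ => integrable_finsetSum _ fun l _ => hZi' k l
  have hZ0 : ∫ y in Q, Z y = 0 := by
    rw [hZ, integral_finsetSum _ fun k _ => integrable_finsetSum _ fun l _ => hZi' k l]
    refine Finset.sum_eq_zero fun k _ => ?_
    rw [integral_finsetSum _ fun l _ => hZi' k l]
    refine Finset.sum_eq_zero fun l _ => ?_
    have j1 : IntegrableOn (fun y => v k * v' l * (dr p y (ek l) * b10 (β a y) (ek k) -
      dr p y (ek k) * b10 (β a y) (ek l))) Q := ((i1 k l).sub (i1 l k)).const_mul _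
    have j2 : IntegrableOn (fun y => v k * conj (v' l) * (conj (dr p y (ek l)) *
      b10 (β a y) (ek k) - dr p y (ek k) * conj (b10 (β a y) (ek l)))) Q :=
      ((i2 k l).sub (i2c l k)).const_mul _
    rw [integral_add j1 j2, integral_const_mul, integral_const_mul, hX k l, hY k l, mul_zero,
      mul_zero, add_zero]
  have hpt' : ∀ y, β a y v * fderiv ℝ p y v' - β a y v' * fderiv ℝ p y v = 2 * (Z y).re := by
    intro y
    have b1 := b10_eq hLIN (β a y) v
    have b2 := b10_eq hLIN (β a y) v'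
    have b3 := (hLIN n y).2.2.2.2 p v
    have b4 := (hLIN n y).2.2.2.2 p v'
    rw [b1.2, b2.2, b3.2, b4.2, form_identity]
    congr 2
    rw [b1.1, b2.1, b3.1, b4.1, hZ]
    simp only [map_sum, map_mul]
    simp only [Finset.sum_mul_sum, mul_add, mul_sub, Finset.sum_add_distrib, Finset.sum_sub_distrib]
    congr 1
    · congr 1
      · refine Finset.sum_congr rfl fun k _ => Finset.sum_congr rfl fun l _ => ?_
        ring
      · rw [Finset.sum_comm]
        refine Finset.sum_congr rfl fun k _ => Finset.sum_congr rfl fun l _ => ?_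
        ring
    · congr 1
      · refine Finset.sum_congr rfl fun k _ => Finset.sum_congr rfl fun l _ => ?_
        ring
      · rw [Finset.sum_comm]
        refine Finset.sum_congr rfl fun k _ => Finset.sum_congr rfl fun l _ => ?_
        ring
  calc ∫ z in Q, (β a z v * fderiv ℝ p z v' - β a z v' * fderiv ℝ p z v)
      = ∫ y in Q, 2 * (Z y).re := integral_congr_ae (Eventually.of_forall hpt')
    _ = 2 * ∫ y in Q, (Z y).re := integral_const_mul _ _
    _ = 2 * (∫ y in Q, Z y).re := by
        congr 1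
        exact Complex.reCLM.integral_comp_comm hZi
    _ = 0 := by rw [hZ0]; simp

end Pool.Agent.H80.VG.WCA
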